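import Mathlib

set_option autoImplicit false
set_option linter.unusedSimpArgs false
set_option linter.unusedSectionVars false

namespace Pool.Agent.Results.MP_6f9abf_an.Continuity

open MeasureTheory Filter Topology

section defs

variable {Ω : Type*} [MeasurableSpace Ω] {μ : Measure Ω} {𝕜 : Type*} [RCLike 𝕜]

/-- The class `|ξ|`. -/
noncomputable def absL (ξ : Ω →ₘ[μ] 𝕜) : Ω →ₘ[μ] ℝ := ξ.comp (fun t => ‖t‖) continuous_norm

/-- The class of the indicator of `A` (for measurable `A`). -/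
noncomputable def ind (μ : Measure Ω) (𝕜 : Type*) [RCLike 𝕜] (A : Set Ω) : Ω →ₘ[μ] 𝕜 :=
  open Classical in
  if h : MeasurableSet A then
    AEEqFun.mk (A.indicator fun _ => (1 : 𝕜))
      ((stronglyMeasurable_const.indicator h).aestronglyMeasurable)
  else 0

/-- A module over `L⁰(F, 𝕜)`, the base being `(Ω, F, μ)`. -/
structure L0Module (μ : Measure Ω) (𝕜 : Type*) [RCLike 𝕜] (E : Type*) [AddCommGroup E] where
  smul : (Ω →ₘ[μ] 𝕜) → E → E
  one_smul : ∀ x, smul 1 x = x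
  mul_smul : ∀ ξ η x, smul (ξ * η) x = smul ξ (smul η x)
  add_smul : ∀ ξ η x, smul (ξ + η) x = smul ξ x + smul η x
  smul_add : ∀ ξ x y, smul ξ (x + y) = smul ξ x + smul ξ y

variable {E : Type*} [AddCommGroup E]

/-- `L⁰`-seminorms. -/
structure IsSeminorm (M : L0Module μ 𝕜 E) (p : E → (Ω →ₘ[μ] ℝ)) : Prop where
  nonneg : ∀ x, 0 ≤ p x
  smul : ∀ ξ x, p (M.smul ξ x) = absL ξ * p x
  add_le : ∀ x y, p (x + y) ≤ p x + p y

/-- `‖x‖_Q`, the essential supremum of finitely many `L⁰`-seminorms. -/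
noncomputable def qn (Q : Finset (E → (Ω →ₘ[μ] ℝ))) (x : E) : Ω →ₘ[μ] ℝ :=
  Q.fold (fun a b => a ⊔ b) 0 (fun p => p x)

/-- Countable measurable partition of `Ω`. -/
def IsPartition (a : ℕ → Set Ω) : Prop :=
  (∀ k, MeasurableSet (a k)) ∧ Pairwise (fun i j => Disjoint (a i) (a j)) ∧ ⋃ k, a k = Set.univ

/-- `z = ∑ I_{a_k} x_k`. -/
def IsConcat (M : L0Module μ 𝕜 E) (a : ℕ → Set Ω) (x : ℕ → E) (z : E) : Prop :=
  ∀ k, M.smul (ind μ 𝕜 (a k)) z = M.smul (ind μ 𝕜 (a k)) (x k)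

/-- The family `P` makes the module `M` into a random locally convex module. -/
def IsRLC (M : L0Module μ 𝕜 E) (P : Set (E → (Ω →ₘ[μ] ℝ))) : Prop :=
  (∀ p ∈ P, IsSeminorm M p) ∧ ∀ x, (∀ p ∈ P, p x = 0) → x = 0

/-- The module itself is `σ`-stable. -/
def ModuleStable (M : L0Module μ 𝕜 E) : Prop :=
  ∀ a : ℕ → Set Ω, IsPartition a → ∀ x : ℕ → E, ∃ z, IsConcat M a x z

/-- The family `P` is `σ`-stable. -/
def FamilyStable (P : Set (E → (Ω →ₘ[μ] ℝ))) : Prop :=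
  ∀ a : ℕ → Set Ω, IsPartition a → ∀ Q : ℕ → Finset (E → (Ω →ₘ[μ] ℝ)),
    (∀ n, ∀ p ∈ Q n, p ∈ P) → ∃ p ∈ P, ∀ n x, ind μ ℝ (a n) * p x = ind μ ℝ (a n) * qn (Q n) x

/-- The subset `G` is `σ`-stable. -/
def SetStable (M : L0Module μ 𝕜 E) (G : Set E) : Prop :=
  ∀ a : ℕ → Set Ω, IsPartition a → ∀ x : ℕ → E, (∀ k, x k ∈ G) → ∀ z, IsConcat M a x z → z ∈ G

/-- The map `f : G → G` is `σ`-stable. -/
def MapStable (M : L0Module μ 𝕜 E) (G : Set E) (f : E → E) : Prop :=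
  ∀ a : ℕ → Set Ω, IsPartition a → ∀ x : ℕ → E, (∀ k, x k ∈ G) → ∀ z, IsConcat M a x z →
    IsConcat M a (fun k => f (x k)) (f z)

/-- `V` is a neighbourhood of `x` in the topology `T_{ε,λ}`. -/
def NhdEL (P : Set (E → (Ω →ₘ[μ] ℝ))) (x : E) (V : Set E) : Prop :=
  ∃ Q : Finset (E → (Ω →ₘ[μ] ℝ)), (∀ p ∈ Q, p ∈ P) ∧ ∃ ε lam : ℝ, 0 < ε ∧ 0 < lam ∧ lam < 1 ∧
    ∀ y, 1 - lam < μ.real {ω | qn Q (y - x) ω < ε} → y ∈ V

/-- `V` is a neighbourhood of `x` in the topology `T_c`. -/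
def NhdC (P : Set (E → (Ω →ₘ[μ] ℝ))) (x : E) (V : Set E) : Prop :=
  ∃ Q : Finset (E → (Ω →ₘ[μ] ℝ)), (∀ p ∈ Q, p ∈ P) ∧ ∃ ε : Ω →ₘ[μ] ℝ, (∀ᵐ ω ∂μ, 0 < ε ω) ∧
    ∀ y, (∀ᵐ ω ∂μ, qn Q (y - x) ω < ε ω) → y ∈ V

/-- Continuity of `f : G → G` for the topology induced by the given neighbourhoods. -/
def ContOn (N : E → Set E → Prop) (G : Set E) (f : E → E) : Prop :=
  ∀ x ∈ G, ∀ V, N (f x) V → ∃ U, N x U ∧ ∀ y ∈ U ∩ G, f y ∈ V

end defs

section proofs

variable {Ω : Type*} [MeasurableSpace Ω] {μ : Measure Ω} {𝕜 : Type*} [RCLike 𝕜]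
  {E : Type*} [AddCommGroup E]

theorem ind_ae {A : Set Ω} (hA : MeasurableSet A) :
    (ind μ 𝕜 A : Ω → 𝕜) =ᵐ[μ] A.indicator fun _ => (1 : 𝕜) := by
  unfold ind
  rw [dif_pos hA]
  exact AEEqFun.coeFn_mk _ _

theorem ind_mul_iff {A : Set Ω} (hA : MeasurableSet A) (u v : Ω →ₘ[μ] ℝ) :
    ind μ ℝ A * u = ind μ ℝ A * v ↔ ∀ᵐ ω ∂μ, ω ∈ A → u ω = v ω := by
  constructor
  · intro h
    have h1 := AEEqFun.coeFn_mul (ind μ ℝ A) u
    have h2 := AEEqFun.coeFn_mul (ind μ ℝ A) v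
    rw [h] at h1
    filter_upwards [h1, h2, ind_ae (𝕜 := ℝ) hA] with ω e1 e2 e3 hω
    rw [e1] at e2
    simp only [Pi.mul_apply, e3, Set.indicator_of_mem hω, one_mul] at e2
    exact e2
  · intro h
    apply AEEqFun.ext
    filter_upwards [AEEqFun.coeFn_mul (ind μ ℝ A) u, AEEqFun.coeFn_mul (ind μ ℝ A) v,
      ind_ae (𝕜 := ℝ) hA, h] with ω e1 e2 e3 e4
    rw [e1, e2]
    simp only [Pi.mul_apply, e3]
    by_cases hω : ω ∈ A
    · rw [e4 hω]
    · simp [hω]

theorem abs_ind {A : Set Ω} (hA : MeasurableSet A) : absL (ind μ 𝕜 A) = ind μ ℝ A := by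
  apply AEEqFun.ext
  filter_upwards [AEEqFun.coeFn_comp _ continuous_norm (ind μ 𝕜 A), ind_ae (𝕜 := 𝕜) hA,
    ind_ae (𝕜 := ℝ) hA] with ω e1 e2 e3
  unfold absL
  rw [e1, e3, Function.comp_apply, e2]
  by_cases hω : ω ∈ A <;> simp [hω]

theorem smul_sub' (M : L0Module μ 𝕜 E) (ξ : Ω →ₘ[μ] 𝕜) (x y : E) :
    M.smul ξ (x - y) = M.smul ξ x - M.smul ξ y := by
  rw [eq_sub_iff_add_eq, ← M.smul_add, sub_add_cancel]

/-- locality of seminorms -/
theorem local_eq (M : L0Module μ 𝕜 E) {p : E → (Ω →ₘ[μ] ℝ)} (hp : IsSeminorm M p) {A : Set Ω}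
    (hA : MeasurableSet A) {y z : E} (w : E)
    (h : M.smul (ind μ 𝕜 A) y = M.smul (ind μ 𝕜 A) z) :
    ∀ᵐ ω ∂μ, ω ∈ A → p (y - w) ω = p (z - w) ω := by
  rw [← ind_mul_iff hA, ← abs_ind (𝕜 := 𝕜) hA, ← hp.smul, ← hp.smul, smul_sub', smul_sub', h]

theorem univ_partition : IsPartition (fun k : ℕ => if k = 0 then (Set.univ : Set Ω) else ∅) := by
  refine ⟨?_, ?_, ?_⟩
  · intro k
    dsimp only
    split_ifs
    · exact MeasurableSet.univ
    · exact MeasurableSet.empty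
  · intro i j hij
    dsimp only
    split_ifs with h1 h2
    · exact absurd (h1.trans h2.symm) hij
    all_goals simp
  · apply Set.eq_univ_of_forall
    intro ω
    exact Set.mem_iUnion.mpr ⟨0, by simp⟩

/-- finite suprema belong to a stable family -/
theorem qn_mem {P : Set (E → (Ω →ₘ[μ] ℝ))} (hP : FamilyStable P)
    (Q : Finset (E → (Ω →ₘ[μ] ℝ))) (hQ : ∀ p ∈ Q, p ∈ P) : qn Q ∈ P := by
  obtain ⟨p, hp, h⟩ := hP _ univ_partition (fun _ => Q) (fun _ => hQ)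
  have : qn Q = p := by
    funext x
    have h1 := (ind_mul_iff (μ := μ) (by simp) _ _).mp (h 0 x)
    apply AEEqFun.ext
    filter_upwards [h1] with ω hω
    exact (hω (by simp)).symm
  rw [this]
  exact hp

/-- two-piece partition -/
theorem two_partition {A : Set Ω} (hA : MeasurableSet A) :
    IsPartition (fun k : ℕ => if k = 0 then A else if k = 1 then Aᶜ else ∅) := by
  refine ⟨?_, ?_, ?_⟩
  · intro k
    dsimp only
    split_ifs
    · exact hA
    · exact hA.compl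
    · exact MeasurableSet.empty
  · intro i j hij
    dsimp only
    split_ifs with h1 h2 h3 h4 h5 h6
    · exact absurd (h1.trans h2.symm) hij
    · exact disjoint_compl_right
    · simp
    · exact disjoint_compl_left
    · exact absurd (h4.trans h6.symm) hij
    all_goals simp
  · apply Set.eq_univ_of_forall
    intro ω
    by_cases h : ω ∈ A
    · exact Set.mem_iUnion.mpr ⟨0, by simpa using h⟩
    · exact Set.mem_iUnion.mpr ⟨1, by simpa using h⟩

/-- partition from a sequence of sets plus remainder -/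
def dpart (D : ℕ → Set Ω) : ℕ → Set Ω
  | 0 => (⋃ n, D n)ᶜ
  | (k + 1) => disjointed D k

theorem disj_partition (D : ℕ → Set Ω) (hD : ∀ n, MeasurableSet (D n)) :
    IsPartition (dpart D) := by
  refine ⟨?_, ?_, ?_⟩
  · intro k
    cases k with
    | zero => exact (MeasurableSet.iUnion hD).compl
    | succ k => exact MeasurableSet.disjointed hD k
  · have key : ∀ k, Disjoint ((⋃ n, D n)ᶜ) (disjointed D k) := by
      intro k
      rw [Set.disjoint_left]
      intro ω h1 h2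
      exact h1 (Set.mem_iUnion.mpr ⟨k, disjointed_subset D k h2⟩)
    intro i j hij
    cases i with
    | zero =>
      cases j with
      | zero => exact absurd rfl hij
      | succ j => exact key j
    | succ i =>
      cases j with
      | zero => exact (key i).symm
      | succ j => exact disjoint_disjointed D (fun h => hij (by rw [h]))
  · apply Set.eq_univ_of_forall
    intro ω
    by_cases h : ω ∈ ⋃ n, D n
    · rw [← iUnion_disjointed] at h
      obtain ⟨k, hk⟩ := Set.mem_iUnion.mp h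
      exact Set.mem_iUnion.mpr ⟨k + 1, hk⟩
    · exact Set.mem_iUnion.mpr ⟨0, h⟩

theorem exhaustion [IsProbabilityMeasure μ] (B : Set (Set Ω)) (hne : B.Nonempty)
    (hmeas : ∀ b ∈ B, MeasurableSet b) (hU : ∀ b : ℕ → Set Ω, (∀ n, b n ∈ B) → (⋃ n, b n) ∈ B) :
    ∃ b ∈ B, ∀ b' ∈ B, ∀ᵐ ω ∂μ, ω ∈ b' → ω ∈ b := by
  have hbdd : BddAbove (μ.real '' B) := by
    refine ⟨1, ?_⟩
    rintro _ ⟨b, _, rfl⟩
    exact measureReal_le_one
  have hex : ∀ n : ℕ, ∃ b ∈ B, sSup (μ.real '' B) - 1 / ((n : ℝ) + 1) < μ.real b := by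
    intro n
    have h1 : sSup (μ.real '' B) - 1 / ((n : ℝ) + 1) < sSup (μ.real '' B) := by
      have : 0 < 1 / ((n : ℝ) + 1) := by positivity
      linarith
    obtain ⟨_, ⟨b, hb, rfl⟩, h2⟩ := exists_lt_of_lt_csSup (hne.image _) h1
    exact ⟨b, hb, h2⟩
  choose b hb hlt using hex
  refine ⟨⋃ n, b n, hU b hb, fun b' hb' => ?_⟩
  have h1 : (⋃ n, b n) ∪ b' ∈ B := by
    have h2 := hU (fun n => match n with | 0 => b' | (k + 1) => b k) (fun n => by
      cases n with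
      | zero => exact hb'
      | succ k => exact hb k)
    have h3 : (⋃ n : ℕ, (match n with | 0 => b' | (k + 1) => b k : Set Ω)) = (⋃ n, b n) ∪ b' := by
      ext ω
      simp only [Set.mem_iUnion, Set.mem_union]
      constructor
      · rintro ⟨n, hn⟩
        cases n with
        | zero => right; exact hn
        | succ k => left; exact ⟨k, hn⟩
      · rintro (⟨k, hk⟩ | h)
        · exact ⟨k + 1, hk⟩
        · exact ⟨0, h⟩
    rwa [h3] at h2
  have h2 : μ.real ((⋃ n, b n) ∪ b') ≤ sSup (μ.real '' B) := le_csSup hbdd ⟨_, h1, rfl⟩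
  have h3 : sSup (μ.real '' B) ≤ μ.real (⋃ n, b n) := by
    apply le_of_forall_pos_lt_add
    intro e he
    obtain ⟨n, hn⟩ := exists_nat_one_div_lt he
    have h4 := hlt n
    have h5 : μ.real (b n) ≤ μ.real (⋃ n, b n) :=
      measureReal_mono (Set.subset_iUnion b n) (measure_ne_top _ _)
    linarith
  have h4 : μ.real ((⋃ n, b n) ∪ b') = μ.real (⋃ n, b n) + μ.real (b' \ ⋃ n, b n) := by
    rw [← measureReal_union disjoint_sdiff_self_right
      ((hmeas b' hb').diff (MeasurableSet.iUnion fun n => hmeas _ (hb n))), Set.union_sdiff_self]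
  have h5 : μ.real (b' \ ⋃ n, b n) = 0 := by
    have : 0 ≤ μ.real (b' \ ⋃ n, b n) := measureReal_nonneg
    linarith
  have h6 : μ (b' \ ⋃ n, b n) = 0 := by
    rwa [measureReal_eq_zero_iff (measure_ne_top _ _)] at h5
  rw [ae_iff]
  refine measure_mono_null ?_ h6
  intro ω hω
  simp only [Set.mem_setOf_eq, not_forall] at hω
  obtain ⟨h7, h8⟩ := hω
  exact ⟨h7, h8⟩

theorem seminorm_zero (M : L0Module μ 𝕜 E) {p : E → (Ω →ₘ[μ] ℝ)} (hp : IsSeminorm M p) :
    ∀ᵐ ω ∂μ, p 0 ω = 0 := by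
  have h1 : M.smul 0 (0 : E) = 0 := by
    have h2 : M.smul 0 (0 : E) = M.smul 0 (0 : E) + M.smul 0 (0 : E) := by
      conv_lhs => rw [← add_zero (0 : E), M.smul_add]
    simpa using h2
  have h2 := hp.smul 0 0
  rw [h1] at h2
  have h3 := AEEqFun.coeFn_mul (absL (0 : Ω →ₘ[μ] 𝕜)) (p 0)
  rw [← h2] at h3
  filter_upwards [h3, AEEqFun.coeFn_comp _ continuous_norm (0 : Ω →ₘ[μ] 𝕜),
    AEEqFun.coeFn_zero (μ := μ) (β := 𝕜)] with ω e1 e2 e3
  rw [e1, Pi.mul_apply]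
  unfold absL
  rw [e2, Function.comp_apply, e3]
  simp

/-- one level -/
theorem level [IsProbabilityMeasure μ] (M : L0Module μ 𝕜 E) (P : Set (E → (Ω →ₘ[μ] ℝ)))
    (hP : IsRLC M P) (hM : ModuleStable M) (hPs : FamilyStable P) (G : Set E)
    (hG : SetStable M G) (f : E → E) (hfs : MapStable M G f)
    (hf : ContOn (NhdEL P) G f) (x₀ : E) (hx₀ : x₀ ∈ G) (Q : Finset (E → (Ω →ₘ[μ] ℝ)))
    (hQ : ∀ p ∈ Q, p ∈ P) (ε : Ω →ₘ[μ] ℝ) (hε : ∀ᵐ ω ∂μ, 0 < ε ω) (η : ℝ) (hη : 0 < η) :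
    ∃ Q' : Finset (E → (Ω →ₘ[μ] ℝ)), (∀ p ∈ Q', p ∈ P) ∧ ∃ δ : ℝ, 0 < δ ∧ ∃ B : Set Ω,
      MeasurableSet B ∧ μ.real B < η ∧ ∀ x ∈ G, (∀ᵐ ω ∂μ, qn Q' (x - x₀) ω < δ) →
        ∀ᵐ ω ∂μ, ω ∉ B → qn Q (f x - f x₀) ω < ε ω := by
  have hqs := hP.1 _ (qn_mem hPs Q hQ)
  obtain ⟨N, hN⟩ : ∃ N : ℕ, 1 - η / 2 < μ.real {ω | 1 / ((N : ℝ) + 1) < ε ω} := by
    have h1 : Tendsto (fun N : ℕ => μ {ω | 1 / ((N : ℝ) + 1) < ε ω}) atTop
        (𝓝 (μ (⋃ N : ℕ, {ω | 1 / ((N : ℝ) + 1) < ε ω}))) := by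
      apply tendsto_measure_iUnion_atTop
      intro a b hab ω hω
      have : (1 : ℝ) / (b + 1) ≤ 1 / (a + 1) := Nat.one_div_le_one_div hab
      exact lt_of_le_of_lt this hω
    have hnm : NullMeasurableSet (⋃ N : ℕ, {ω | 1 / ((N : ℝ) + 1) < ε ω}) μ :=
      (MeasurableSet.iUnion fun n =>
        measurableSet_lt measurable_const ε.measurable).nullMeasurableSet
    have h2 : μ (⋃ N : ℕ, {ω | 1 / ((N : ℝ) + 1) < ε ω}) = 1 := by
      apply (prob_compl_eq_zero_iff₀ hnm).mp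
      refine measure_mono_null ?_ (ae_iff.mp hε)
      intro ω hω h0
      apply hω
      obtain ⟨n, hn⟩ := exists_nat_one_div_lt h0
      exact Set.mem_iUnion.mpr ⟨n, hn⟩
    rw [h2] at h1
    have h3 : Tendsto (fun N : ℕ => μ.real {ω | 1 / ((N : ℝ) + 1) < ε ω}) atTop (𝓝 1) := by
      have := (ENNReal.tendsto_toReal ENNReal.one_ne_top).comp h1
      simpa [Function.comp_def, measureReal_def] using this
    exact (h3.eventually_const_lt (by linarith : 1 - η / 2 < 1)).exists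
  obtain ⟨ε₀, hε₀, hN⟩ : ∃ ε₀ : ℝ, 0 < ε₀ ∧ 1 - η / 2 < μ.real {ω | ε₀ < ε ω} :=
    ⟨_, by positivity, hN⟩
  obtain ⟨U, ⟨Q', hQ', δ, lam', hδ, hlam', hlam'1, hU⟩, hUV⟩ := hf x₀ hx₀
    {y | 1 - min (η / 2) (1 / 2) < μ.real {ω | qn Q (y - f x₀) ω < ε₀}}
    ⟨Q, hQ, ε₀, min (η / 2) (1 / 2), hε₀, by positivity,
      lt_of_le_of_lt (min_le_right _ _) (by norm_num), fun y hy => hy⟩
  have hqs' := hP.1 _ (qn_mem hPs Q' hQ')
  -- measure of a bad set
  have hbad : ∀ x ∈ G, (∀ᵐ ω ∂μ, qn Q' (x - x₀) ω < δ) → ∀ B : Set Ω, MeasurableSet B →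
      (∀ᵐ ω ∂μ, ω ∈ B → ε ω ≤ qn Q (f x - f x₀) ω) → μ.real B < η := by
    intro x hx hxδ B hB hBx
    have h1 : x ∈ U := by
      apply hU
      have hnm : NullMeasurableSet {ω | qn Q' (x - x₀) ω < δ} μ :=
        (measurableSet_lt (AEEqFun.measurable _) measurable_const).nullMeasurableSet
      have : μ.real {ω | qn Q' (x - x₀) ω < δ} = 1 := by
        rw [measureReal_def, (prob_compl_eq_zero_iff₀ hnm).mp (ae_iff.mp hxδ)]
        rfl
      rw [this]; linarith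
    have h2 : 1 - min (η / 2) (1 / 2) < μ.real {ω | qn Q (f x - f x₀) ω < ε₀} := hUV x ⟨h1, hx⟩
    have h3 : min (η / 2) (1 / 2) ≤ η / 2 := min_le_left _ _
    have h4 : μ.real {ω | ε₀ < ε ω} + μ.real {ω | qn Q (f x - f x₀) ω < ε₀} ≤ 2 - μ.real B := by
      have m1 : MeasurableSet {ω | ε₀ < ε ω} := measurableSet_lt measurable_const ε.measurable
      have m2 : MeasurableSet {ω | qn Q (f x - f x₀) ω < ε₀} :=
        measurableSet_lt (AEEqFun.measurable _) measurable_const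
      have h5 : μ.real ({ω | ε₀ < ε ω} ∪ {ω | qn Q (f x - f x₀) ω < ε₀})
          + μ.real ({ω | ε₀ < ε ω} ∩ {ω | qn Q (f x - f x₀) ω < ε₀})
          = μ.real {ω | ε₀ < ε ω} + μ.real {ω | qn Q (f x - f x₀) ω < ε₀} :=
        measureReal_union_add_inter m2
      have h6 : μ.real ({ω | ε₀ < ε ω} ∪ {ω | qn Q (f x - f x₀) ω < ε₀}) ≤ 1 := measureReal_le_one
      have h7 : μ.real ({ω | ε₀ < ε ω} ∩ {ω | qn Q (f x - f x₀) ω < ε₀}) ≤ μ.real Bᶜ := by
        rw [measureReal_def, measureReal_def]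
        apply ENNReal.toReal_mono (measure_ne_top _ _)
        apply measure_mono_ae
        filter_upwards [hBx] with ω hω h8 h9
        obtain ⟨h8, h8'⟩ := h8
        have := hω h9
        simp only [Set.mem_setOf_eq] at h8 h8'
        linarith
      have h8 : μ.real Bᶜ = 1 - μ.real B := by
        rw [measureReal_compl hB]; simp
      linarith
    linarith
  obtain ⟨𝓑, h𝓑⟩ : ∃ 𝓑 : Set (Set Ω), 𝓑 = {B | MeasurableSet B ∧
    ∃ x ∈ G, (∀ᵐ ω ∂μ, qn Q' (x - x₀) ω < δ) ∧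
      ∀ᵐ ω ∂μ, ω ∈ B → ε ω ≤ qn Q (f x - f x₀) ω} := ⟨_, rfl⟩
  have hne : 𝓑.Nonempty := by
    rw [h𝓑]
    refine ⟨∅, MeasurableSet.empty, x₀, hx₀, ?_, Eventually.of_forall fun ω h => absurd h (by simp)⟩
    rw [sub_self]
    filter_upwards [seminorm_zero M hqs'] with ω hω
    rw [hω]; exact hδ
  have hunion : ∀ b : ℕ → Set Ω, (∀ n, b n ∈ 𝓑) → (⋃ n, b n) ∈ 𝓑 := by
    rw [h𝓑]
    intro b hb
    have hbm : ∀ n, MeasurableSet (b n) := fun n => (hb n).1
    choose x hxG hxδ hxB using fun n => (hb n).2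
    have hpart := disj_partition b hbm
    obtain ⟨z, hz⟩ := hM _ hpart (fun k => match k with | 0 => x₀ | (k + 1) => x k)
    have hyG : ∀ k, (match k with | 0 => x₀ | (k + 1) => x k : E) ∈ G := by
      intro k
      cases k with
      | zero => exact hx₀
      | succ k => exact hxG k
    have hzG := hG _ hpart _ hyG z hz
    have hfz := hfs _ hpart _ hyG z hz
    refine ⟨MeasurableSet.iUnion hbm, z, hzG, ?_, ?_⟩
    · have h1 : ∀ k, ∀ᵐ ω ∂μ, ω ∈ dpart b k → qn Q' (z - x₀) ω < δ := by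
        intro k
        have h2 := local_eq M hqs' (hpart.1 k) x₀ (hz k)
        cases k with
        | zero =>
          filter_upwards [h2, seminorm_zero M hqs'] with ω e1 e2 hω
          rw [e1 hω]
          simp only [sub_self]
          rw [e2]; exact hδ
        | succ k =>
          filter_upwards [h2, hxδ k] with ω e1 e2 hω
          rw [e1 hω]
          exact e2
      filter_upwards [ae_all_iff.mpr h1] with ω hω
      have : ω ∈ ⋃ k, dpart b k := by
        rw [hpart.2.2]; trivial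
      obtain ⟨k, hk⟩ := Set.mem_iUnion.mp this
      exact hω k hk
    · have h1 : ∀ k, ∀ᵐ ω ∂μ, ω ∈ disjointed b k → ε ω ≤ qn Q (f z - f x₀) ω := by
        intro k
        have h2 := local_eq M hqs (hpart.1 (k + 1)) (f x₀) (hfz (k + 1))
        filter_upwards [h2, hxB k] with ω e1 e2 hω
        rw [e1 hω]
        exact e2 (disjointed_subset b k hω)
      filter_upwards [ae_all_iff.mpr h1] with ω hω hωb
      rw [← iUnion_disjointed] at hωb
      obtain ⟨k, hk⟩ := Set.mem_iUnion.mp hωb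
      exact hω k hk
  obtain ⟨B, hB, hmax⟩ := exhaustion (μ := μ) 𝓑 hne (fun b hb => by
    rw [h𝓑] at hb; exact hb.1) hunion
  rw [h𝓑] at hB hmax
  obtain ⟨hBm, x, hxG, hxδ, hxB⟩ := hB
  refine ⟨Q', hQ', δ, hδ, B, hBm, hbad x hxG hxδ B hBm hxB, fun y hy hyδ => ?_⟩
  have h1 := hmax {ω | ε ω ≤ qn Q (f y - f x₀) ω}
    ⟨measurableSet_le ε.measurable (AEEqFun.measurable _), y, hy, hyδ,
      Eventually.of_forall fun ω hω => hω⟩
  filter_upwards [h1] with ω hω hωB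
  by_contra h
  exact hωB (hω (not_lt.mp h))

/-- constants pasted along a partition -/
theorem paste_const [IsProbabilityMeasure μ] {a : ℕ → Set Ω} (ha : IsPartition a) (c : ℕ → ℝ) :
    ∃ δ : Ω →ₘ[μ] ℝ, ∀ᵐ ω ∂μ, ∀ k, ω ∈ a k → δ ω = c k := by
  have hk : ∀ ω : Ω, ∃ k, ω ∈ a k := by
    intro ω
    have : ω ∈ ⋃ k, a k := by rw [ha.2.2]; trivial
    exact Set.mem_iUnion.mp this
  choose κ hκ using hk
  have hκm : Measurable κ := by
    apply measurable_to_countable'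
    intro k
    have : κ ⁻¹' {k} = a k := by
      ext ω
      constructor
      · intro h
        have h' : κ ω = k := h
        rw [← h']; exact hκ ω
      · intro h
        by_contra hne
        exact Set.disjoint_left.mp (ha.2.1 hne) (hκ ω) h
    rw [this]
    exact ha.1 k
  refine ⟨AEEqFun.mk (fun ω => c (κ ω))
    ((measurable_of_countable c).comp hκm).stronglyMeasurable.aestronglyMeasurable, ?_⟩
  filter_upwards [AEEqFun.coeFn_mk (fun ω => c (κ ω))
    (((measurable_of_countable c).comp hκm).stronglyMeasurable.aestronglyMeasurable (μ := μ))]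
    with ω hω k hk
  rw [hω]
  have : κ ω = k := by
    by_contra hne
    exact Set.disjoint_left.mp (ha.2.1 hne) (hκ ω) hk
  rw [this]

theorem qn_single (M : L0Module μ 𝕜 E) {p : E → (Ω →ₘ[μ] ℝ)} (hp : IsSeminorm M p) (x : E) :
    qn {p} x = p x := by
  unfold qn
  rw [Finset.fold_singleton]
  exact sup_eq_left.mpr (hp.nonneg x)

/-- Every `σ`-stable, `T_{ε,λ}`-continuous map is `T_c`-continuous. -/
theorem result [IsProbabilityMeasure μ] (M : L0Module μ 𝕜 E) (P : Set (E → (Ω →ₘ[μ] ℝ)))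
    (hP : IsRLC M P) (hM : ModuleStable M) (hPs : FamilyStable P) (G : Set E)
    (hG : SetStable M G) (f : E → E) (hfG : ∀ x ∈ G, f x ∈ G) (hfs : MapStable M G f)
    (hf : ContOn (NhdEL P) G f) : ContOn (NhdC P) G f := by
  intro x₀ hx₀ V ⟨Q, hQ, ε, hε, hV⟩
  have hqs := hP.1 _ (qn_mem hPs Q hQ)
  choose Q' hQ' δ hδ B hBm hBη hlev using fun k : ℕ =>
    level M P hP hM hPs G hG f hfs hf x₀ hx₀ Q hQ ε hε (1 / ((k : ℝ) + 1)) (by positivity)
  have hpart := disj_partition (fun k => (B k)ᶜ) (fun k => (hBm k).compl)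
  obtain ⟨p, hp, hpQ⟩ := hPs _ hpart (fun k => match k with | 0 => ∅ | (k + 1) => Q' k) (by
    intro k q hq
    cases k with
    | zero => simp at hq
    | succ k => exact hQ' k q hq)
  obtain ⟨d, hd⟩ := paste_const (μ := μ) hpart (fun k => match k with | 0 => 1 | (k + 1) => δ k)
  have hps := hP.1 p hp
  refine ⟨{y | ∀ᵐ ω ∂μ, qn {p} (y - x₀) ω < d ω}, ⟨{p}, ?_, d, ?_, fun y hy => hy⟩, ?_⟩
  · intro q hq
    rw [Finset.mem_singleton.mp hq]; exact hp
  · filter_upwards [hd] with ω hω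
    have : ω ∈ ⋃ k, dpart (fun k => (B k)ᶜ) k := by
      rw [hpart.2.2]; trivial
    obtain ⟨k, hk⟩ := Set.mem_iUnion.mp this
    rw [hω k hk]
    cases k with
    | zero => norm_num
    | succ k => exact hδ k
  · rintro y ⟨hy, hyG⟩
    apply hV
    have hnull : ∀ᵐ ω ∂μ, ω ∈ ⋃ n, (B n)ᶜ := by
      rw [ae_iff]
      have h1 : μ.real {ω | ¬ ω ∈ ⋃ n, (B n)ᶜ} = 0 := by
        apply le_antisymm _ measureReal_nonneg
        apply le_of_forall_pos_lt_add
        intro e he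
        obtain ⟨n, hn⟩ := exists_nat_one_div_lt he
        have h2 : μ.real {ω | ¬ ω ∈ ⋃ n, (B n)ᶜ} ≤ μ.real (B n) := by
          apply measureReal_mono _ (measure_ne_top _ _)
          intro ω hω
          by_contra h
          exact hω (Set.mem_iUnion.mpr ⟨n, h⟩)
        have h3 := hBη n
        linarith
      rwa [measureReal_eq_zero_iff (measure_ne_top _ _)] at h1
    have hmain : ∀ k, ∀ᵐ ω ∂μ, ω ∈ disjointed (fun k => (B k)ᶜ) k →
        qn Q (f y - f x₀) ω < ε ω := by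
      intro k
      have hA : MeasurableSet (disjointed (fun k => (B k)ᶜ) k) := hpart.1 (k + 1)
      have h2p := two_partition hA
      obtain ⟨z, hz⟩ := hM _ h2p (fun k => if k = 0 then y else x₀)
      have hyG' : ∀ k : ℕ, (if k = 0 then y else x₀) ∈ G := by
        intro k; split_ifs
        · exact hyG
        · exact hx₀
      have hzG := hG _ h2p _ hyG' z hz
      have hfz := hfs _ h2p _ hyG' z hz
      have hz0 : M.smul (ind μ 𝕜 (disjointed (fun k => (B k)ᶜ) k)) z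
          = M.smul (ind μ 𝕜 (disjointed (fun k => (B k)ᶜ) k)) y := by simpa using hz 0
      have hz1 : M.smul (ind μ 𝕜 (disjointed (fun k => (B k)ᶜ) k)ᶜ) z
          = M.smul (ind μ 𝕜 (disjointed (fun k => (B k)ᶜ) k)ᶜ) x₀ := by simpa using hz 1
      have hfz0 : M.smul (ind μ 𝕜 (disjointed (fun k => (B k)ᶜ) k)) (f z)
          = M.smul (ind μ 𝕜 (disjointed (fun k => (B k)ᶜ) k)) (f y) := by simpa using hfz 0
      have hqs' := hP.1 _ (qn_mem hPs (Q' k) (hQ' k))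
      have hzδ : ∀ᵐ ω ∂μ, qn (Q' k) (z - x₀) ω < δ k := by
        filter_upwards [local_eq M hqs' hA x₀ hz0, local_eq M hqs' hA.compl x₀ hz1,
          seminorm_zero M hqs', hy, hd, (ind_mul_iff hA _ _).mp (hpQ (k + 1) (y - x₀))]
          with ω e1 e2 e3 e4 e5 e6
        by_cases hω : ω ∈ disjointed (fun k => (B k)ᶜ) k
        · rw [e1 hω, ← e6 hω]
          rw [qn_single M hps] at e4
          rw [e5 (k + 1) hω] at e4
          exact e4
        · rw [e2 hω]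
          simp only [sub_self]
          rw [e3]; exact hδ k
      filter_upwards [hlev k z hzG hzδ, local_eq M hqs hA (f x₀) hfz0] with ω e1 e2 hω
      rw [← e2 hω]
      exact e1 (disjointed_subset (fun k => (B k)ᶜ) k hω)
    filter_upwards [hnull, ae_all_iff.mpr hmain] with ω h1 h2
    rw [← iUnion_disjointed] at h1
    obtain ⟨k, hk⟩ := Set.mem_iUnion.mp h1
    exact h2 k hk

end proofs

end Pool.Agent.Results.MP_6f9abf_an.Continuity
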